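import Pool.Agent.P.MP_3bd355_an.AllX
import Pool.Agent.P.MP_3bd355_an.E.Pk.Aim
import Pool.Agent.P.MP_3bd355_an.E.Pk.Alt
import Pool.Agent.P.MP_3bd355_an.E.Pk.Arc
import Pool.Agent.P.MP_3bd355_an.E.Pk.Beu
import Pool.Agent.P.MP_3bd355_an.E.Pk.Bq
import Pool.Agent.P.MP_3bd355_an.E.Pk.Conea
import Pool.Agent.P.MP_3bd355_an.E.Pk.Coneb
import Pool.Agent.P.MP_3bd355_an.E.Pk.Core
import Pool.Agent.P.MP_3bd355_an.E.Pk.Cross
import Pool.Agent.P.MP_3bd355_an.E.Pk.Cub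
import Pool.Agent.P.MP_3bd355_an.E.Pk.Dich
import Pool.Agent.P.MP_3bd355_an.E.Pk.Edat
import Pool.Agent.P.MP_3bd355_an.E.Pk.Gb
import Pool.Agent.P.MP_3bd355_an.E.Pk.Key
import Pool.Agent.P.MP_3bd355_an.E.Pk.Kneg
import Pool.Agent.P.MP_3bd355_an.E.Pk.Mem
import Pool.Agent.P.MP_3bd355_an.E.Pk.Ns
import Pool.Agent.P.MP_3bd355_an.E.Pk.Posa
import Pool.Agent.P.MP_3bd355_an.E.Pk.Posb
import Pool.Agent.P.MP_3bd355_an.E.Pk.Pot
import Pool.Agent.P.MP_3bd355_an.E.Pk.Radc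
import Pool.Agent.P.MP_3bd355_an.E.Pk.Reg
import Pool.Agent.P.MP_3bd355_an.E.Pk.Sel
import Pool.Agent.P.MP_3bd355_an.E.Pk.Sym
import Pool.Agent.P.MP_3bd355_an.E.Pk.Symr
import Pool.Agent.P.MP_3bd355_an.E.Pk.Tip1
import Pool.Agent.P.MP_3bd355_an.E.Pk.Tipa
import Pool.Agent.P.MP_3bd355_an.E.Pk.Tp
import Pool.Agent.P.MP_3bd355_an.E.Pk.Varg
import Pool.Agent.P.MP_3bd355_an.E.Pk.Varx

/-! Composition of the packages: the exceptional position. -/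

namespace Pool.Agent.P.MP_3bd355_an

theorem allE_GB : E_GB := e_gb (e_beu e_sel e_pot e_arc)

theorem allE_BQ : E_BQ := e_bq allE_GB e_cub

theorem allE_TIP1 : E_TIP1 := e_tip1 all_PN all_ZEX e_cross

theorem allE_CORE : E_CORE :=
  e_core all_FR all_GREEN all_MART all_SOLEX allE_TIP1 (e_tp all_PN) (e_varx (e_varg all_VARA))
    e_posa e_posb (e_kneg e_cub) (e_alt all_GORDAN) e_key e_aim allE_GB e_edat (e_reg all_REG0)
    (e_tipa all_LOC1 all_LOC2)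

theorem allE_MEM : E_MEM :=
  e_mem all_SC e_radc (e_dich all_FR allE_BQ (e_ns all_REFL)) (e_sym all_FR allE_BQ)
    (e_symr (x5 x1 x2 x3 x4)) e_conea (e_coneb all_CRIT2) allE_CORE

end Pool.Agent.P.MP_3bd355_an
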