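import Pool.Agent.P.MP_3bd355_an.Stmts2

/-! The exceptional position (both points on one ray, extremal value zero): definitions and the
statements of the packages. -/

open Set Filter Metric Complex InnerProductSpace
open scoped Topology ComplexConjugate Real

namespace Pool.Agent.P.MP_3bd355_an

/-- A cone above `z₀`. -/
def Cone (z₀ : ℂ) : Set ℂ := {z | 3 * |(z - z₀).re| ≤ (z - z₀).im ∧ z ≠ z₀}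

/-- Linear growth in the cone. -/
def CB1 (v : ℂ → ℝ) (z₀ : ℂ) : Prop := ∃ c > 0, ∀ᶠ z in 𝓝[Cone z₀] z₀, c * ‖z - z₀‖ ≤ v z

/-- Growth of order `3 / 2` in the cone. -/
def CB2 (v : ℂ → ℝ) (z₀ : ℂ) : Prop :=
  ∃ c > 0, ∀ᶠ z in 𝓝[Cone z₀] z₀, c * (‖z - z₀‖ * √‖z - z₀‖) ≤ v z

/-- A strict connection of `L` to the outer circle, not necessarily in the lower half plane. -/
structure SCU (r : ℝ) (L : Set ℂ) (v : ℂ → ℝ) (K : Set ℂ) : Prop where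
  cpt : IsCompact K
  conn : IsPreconnected K
  sup : L ⊆ K
  sub : K ⊆ cann r
  out : ∃ p ∈ K, ‖p‖ = 1
  neg : ∀ z ∈ K, z ∉ L → ‖z‖ = 1 ∨ v z < 0

/-- `y` is the only zero of the normal derivative modulo `2 π`. -/
def One (v : ℂ → ℝ) (F : ℂ → ℂ) (s0 s1 y : ℝ) : Prop :=
  y ∈ Zer v F s0 s1 ∧ ∀ x ∈ Zer v F s0 s1, ∃ k : ℤ, x = y + 2 * π * k

/-- The normal derivative of `D ∘ F` vanishes at `y`. -/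
def DZ (D : ℂ → ℝ) (F : ℂ → ℂ) (y : ℝ) : Prop :=
  Tendsto (fun τ : ℝ => D (F (y + τ * I)) / τ) (𝓝[>] 0) (𝓝 0)

/-- `D` is harmonic off the poles and vanishes on the boundary. -/
structure Dip (r : ℝ) (L : Set ℂ) (Z : Finset ℂ) (D : ℂ → ℝ) : Prop where
  sub : ∀ ζ ∈ Z, ζ ∈ main r L
  harm : HarmonicOnNhd D (main r L \ Z)
  bd : ∀ p ∈ frontier (main r L), Tendsto D (𝓝[main r L] p) (𝓝 0)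

/-- An admissible vector field that fixes `z₁` and moves `z₀` down. -/
structure Fld (r : ℝ) (L K : Set ℂ) (z₀ z₁ : ℂ) (Z : Finset ℂ) (a : ℂ → ℂ) (c₀ : ℝ) : Prop where
  sub : ∀ ζ ∈ Z, ζ ∈ main r L ∧ ζ ∉ K
  bal : ∑ ζ ∈ Z, (a ζ).re = 0
  fix : rho r Z a c₀ z₁ = 0
  dir : 4 * |(z₀ * rho r Z a c₀ z₀).re| < -(z₀ * rho r Z a c₀ z₀).im

theorem SCU.gc {r A B : ℝ} {L : Set ℂ} {v : ℂ → ℝ} {z₁ : ℂ} {K : Set ℂ} (h : Cfg r A B z₁ L v)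
    (hK : SCU r L v K) : GC r A B z₁ K v := by
  have hL := h.cont
  refine ⟨hK.cpt, hK.conn, hK.sub, hK.sup h.mem, hK.out, h.sub, fun z hz ha => ?_,
    fun p hp => LS.of_tendsto (Sol.outer hL h.ok h.sol hp) le_rfl,
    fun p _ => LS.of_eventually (Eventually.of_forall fun z => (Sol.bounds hL h.sol h.A0 le_rfl
      (h.A0.trans h.B0.le) h.B0.le (h.A0.trans h.B0.le) le_rfl z).2),
    _, hL.exc_finite, fun p hp hr hS => LS.of_tendsto (Sol.hug hL h.sol hr fun hc => ?_) le_rfl⟩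
  · by_cases hzL : z ∈ L
    · exact (Sol.zero h.sol hzL).le
    · exact (hK.neg z hz hzL).elim (fun h1 => absurd h1 ha.2.ne) le_of_lt
  · have hE : p ∈ Ex r L := by
      by_contra hE
      exact hS ⟨hc, hE⟩
    rcases hK.neg p hp hE.2.1 with h1 | h1
    · exact hL.r1.ne (hr.symm.trans h1)
    · exact h1.ne (h.sol.off p fun hW => (main_sub r L hW).1.1.ne' hr)

/-- A uniform constant on a compact interval. -/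
theorem uni_const {P : ℝ → ℂ → Prop} (hP : ∀ C C' η, C ≤ C' → P C η → P C' η) {a b : ℝ}
    (H : ∀ x ∈ Icc a b, ∃ C, ∀ᶠ η : ℂ in 𝓝[upH] (x : ℂ), P C η) :
    ∃ C, ∀ x ∈ Icc a b, ∀ᶠ η : ℂ in 𝓝[upH] (x : ℂ), P C η := by
  refine isCompact_Icc.induction_on
    (p := fun s : Set ℝ => ∃ C, ∀ x ∈ s, ∀ᶠ η : ℂ in 𝓝[upH] (x : ℂ), P C η) ⟨0, by simp⟩ ?_ ?_ ?_
  · rintro s t hst ⟨C, h⟩
    exact ⟨C, fun x hx => h x (hst hx)⟩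
  · rintro s t ⟨C, h⟩ ⟨C', h'⟩
    refine ⟨max C C', ?_⟩
    rintro x (hx | hx)
    · exact (h x hx).mono fun η => hP _ _ η (le_max_left _ _)
    · exact (h' x hx).mono fun η => hP _ _ η (le_max_right _ _)
  · intro x hx
    obtain ⟨C, h⟩ := H x hx
    exact ⟨_, nhdsWithin_le_nhds (eventually_upH h), C, fun t ht => ht⟩

theorem Cone_upH {z₀ : ℂ} (h : z₀.im = 0) : Cone z₀ ⊆ upH := by
  intro z hz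
  obtain ⟨h1, h2⟩ := hz
  rw [sub_im, h, sub_zero] at h1
  refine lt_of_le_of_ne ((by positivity : (0 : ℝ) ≤ 3 * |(z - z₀).re|).trans h1) fun e => h2 ?_
  have h3 : |(z - z₀).re| = 0 := le_antisymm (by linarith) (abs_nonneg _)
  rw [abs_eq_zero, sub_re] at h3
  exact Complex.ext (by linarith) (by rw [← e, h])

theorem Cone_main {r : ℝ} {L : Set ℂ} (hL : Cont r L) {z₀ : ℂ} (m0 : z₀ ∈ ann r) (h : z₀.im = 0) :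
    𝓝[Cone z₀] z₀ ≤ 𝓝[main r L] z₀ := by
  refine le_inf nhdsWithin_le_nhds (le_principal_iff.2 ?_)
  filter_upwards [self_mem_nhdsWithin, nhdsWithin_le_nhds ((isOpen_ann r).mem_nhds m0)] with z h1 h2
  exact hL.upper_sub ⟨h2, Cone_upH h h1⟩

/-! ### The Beurling estimate -/

/-- A measurable selection of points of a continuum on concentric circles. -/
def E_SEL : Prop := ∀ (K : Set ℂ) (p : ℂ) (ρ : ℝ), IsCompact K → IsPreconnected K → p ∈ K →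
  ¬ K ⊆ ball p ρ → 0 < ρ →
  ∃ ζ : ℝ → ℂ, Measurable ζ ∧ ∀ s ∈ Icc (0 : ℝ) ρ, ζ s ∈ K ∧ ‖ζ s - p‖ = s

/-- Logarithmic potentials are harmonic off the support. -/
def E_POT : Prop := ∀ (ζ : ℝ → ℂ) (K W : Set ℂ), Measurable ζ → IsCompact K → (∀ t, ζ t ∈ K) →
  IsOpen W → Disjoint K W →
  HarmonicOnNhd (fun z => ∫ t in (0 : ℝ)..(2 * π), Real.log ‖z - ζ t‖) W

/-- The potential of the arcsine law. -/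
def E_ARC : Prop := ∀ a σ : ℝ, 0 < a → 0 ≤ σ →
  IntervalIntegrable (fun t : ℝ => Real.log |σ - a * (1 - Real.cos t)|) MeasureTheory.volume
      0 (2 * π) ∧
    2 * π * Real.log (a / 2) ≤ ∫ t in (0 : ℝ)..(2 * π), Real.log |σ - a * (1 - Real.cos t)| ∧
    (0 < σ → ∫ t in (0 : ℝ)..(2 * π), Real.log (σ + a * (1 - Real.cos t)) ≤
      2 * π * (Real.log (a / 2) + √(2 * σ / a)))

/-- The Beurling estimate. -/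
def E_BEU : Prop := ∀ (p : ℂ) (ρ : ℝ) (K W : Set ℂ) (u : ℂ → ℝ), 0 < ρ → IsCompact K →
  IsPreconnected K → p ∈ K → ¬ K ⊆ ball p ρ → IsOpen W → Disjoint K W → Sub u W →
  (∀ z ∈ W, u z ≤ 1) → (∀ q ∈ frontier W, q ∈ ball p ρ → LS u W q 0) →
  ∀ z ∈ W, u z ≤ 3 * √(‖z - p‖ / ρ)

/-- The height in the strip is at most the square root of the distance. -/
def E_GB : Prop := ∀ (r : ℝ) (L : Set ℂ) (φ F : ℂ → ℂ) (h : ℝ) (p : ℂ), Unif r L φ F h →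
  (∀ q ∈ L, ‖q‖ < 1) → p ∈ L → p ∈ ann r →
  ∃ C : ℝ, ∀ᶠ z in 𝓝[main r L] p, -Real.log ‖φ z‖ ≤ C * √‖z - p‖

/-- The expansion in the height has no quadratic term. -/
def E_CUB : Prop := ∀ (u : ℂ → ℝ) (x : ℝ) (Φ : ℂ → ℂ), RefAt u x Φ →
  ∃ C : ℝ, ∀ᶠ η : ℂ in 𝓝[upH] (x : ℂ), |u η - η.im * (deriv Φ η.re).re| ≤ C * η.im ^ 3

/-- The negative part of `v` is small near `L`. -/
def E_BQ : Prop := ∀ (r A B : ℝ) (z₁ : ℂ) (L : Set ℂ) (v : ℂ → ℝ) (φ F : ℂ → ℂ) (h s0 s1 : ℝ)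
  (p : ℂ), Fr r A B z₁ L v φ F h s0 s1 → A < 0 → p ∈ L → p ∈ ann r →
  ∃ C : ℝ, ∀ᶠ z in 𝓝 p, -(C * (‖z - p‖ * √‖z - p‖)) ≤ v z

/-! ### Symmetric and non-symmetric configurations -/

def E_NS : Prop := ∀ (r A B : ℝ) (z₀ z₁ : ℂ) (L : Set ℂ) (v : ℂ → ℝ), Cfg r A B z₁ L v →
  z₀ ∈ ann r → z₀.im = 0 → (∃ z ∈ ann r, v (conj z) ≠ v z) →
  ∃ c > 0, ∀ᶠ z in 𝓝[upH] z₀, c * z.im ≤ v z - v (conj z)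

def E_DICH : Prop := ∀ (r A B : ℝ) (z₀ z₁ : ℂ) (L : Set ℂ) (v : ℂ → ℝ), Cfg r A B z₁ L v →
  A < 0 → z₀ ∈ L → z₀ ∈ ann r → z₀.im = 0 → CB1 v z₀ ∨ ∀ z ∈ ann r, v (conj z) = v z

def E_SYM : Prop := ∀ (r A B : ℝ) (z₁ : ℂ) (L : Set ℂ) (v : ℂ → ℝ), Cfg r A B z₁ L v → A < 0 →
  (∀ z ∈ ann r, v (conj z) = v z) → ∀ p ∈ L, p ∈ ann r → p.im = 0

/-- A real configuration does not extend beyond the radial slit. -/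
def E_SYMR : Prop := ∀ (r A B x R s : ℝ) (L : Set ℂ) (v v₀ : ℂ → ℝ), RS r A B x R v₀ → A < 0 →
  Cfg r A B x L v → (∀ p ∈ L, p ∈ ann r → p.im = 0) → x < s → (s : ℂ) ∈ L → s ≤ R

/-- The radial configuration. -/
def E_RADC : Prop := ∀ r A B x : ℝ, 0 < r → r < x → x < 1 → A < 0 → 0 < hf r A B x →
  ∃ (y R : ℝ) (L : Set ℂ) (v : ℂ → ℝ) (a b : ℂ) (c : ℝ) (κ : ℝ → ℂ) (g : ℂ → ℝ), r < y ∧ y < 1 ∧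
    Cfg r A B x L v ∧ RS r A B x R v ∧ Crit r A B (-y) x a b c κ v g ∧
    κ '' Icc 0 1 = seg x R ∧ κ 1 = R ∧ seg x R ⊆ L

/-- Growth at an interior point of the radial slit. -/
def E_CONEa : Prop := ∀ (r A B x R s : ℝ) (z₀ a b : ℂ) (c : ℝ) (κ : ℝ → ℂ) (v g : ℂ → ℝ),
  CH r A B z₀ x → r < x → Crit r A B z₀ x a b c κ v g → κ '' Icc 0 1 = seg x R → κ 1 = R →
  x < s → s < R → CB2 v s

/-- Growth at the end of the radial slit. -/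
def E_CONEb : Prop := ∀ (r A B x R : ℝ) (z₀ a b : ℂ) (c : ℝ) (κ : ℝ → ℂ) (v g : ℂ → ℝ),
  CH r A B z₀ x → r < x → Crit r A B z₀ x a b c κ v g → κ '' Icc 0 1 = seg x R → κ 1 = R →
  x < R → A < 0 → CB2 v R

/-! ### The zero of the normal derivative is unique -/

/-- Two connected sets with alternating radial ends meet. -/
def E_CROSS : Prop := ∀ (c : ℂ) (R₀ ε θ₁ θ₂ θ₃ θ₄ : ℝ) (X Y : Set ℂ), 0 ≤ R₀ → 0 < ε → θ₁ < θ₂ →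
  θ₂ < θ₃ → θ₃ < θ₄ → θ₄ < θ₁ + 2 * π → IsPathConnected X → IsPathConnected Y →
  (∀ z ∈ X, R₀ < ‖z - c‖) → (∀ z ∈ Y, R₀ < ‖z - c‖) →
  (∀ s ∈ Ioo R₀ (R₀ + ε), c + s * exp (I * θ₁) ∈ X ∧ c + s * exp (I * θ₂) ∈ Y ∧
    c + s * exp (I * θ₃) ∈ X ∧ c + s * exp (I * θ₄) ∈ Y) → ¬ Disjoint X Y

def E_TIP1 : Prop := ∀ (r A B : ℝ) (z₁ : ℂ) (L : Set ℂ) (v : ℂ → ℝ) (φ F : ℂ → ℂ) (h s0 s1 : ℝ),
  Fr r A B z₁ L v φ F h s0 s1 → A < 0 → ∃ y ∈ Icc s0 s1, One v F s0 s1 y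

/-! ### The variation -/

/-- The unfolded curve from the tip to the outer circle. -/
def E_TP : Prop := ∀ (r A B : ℝ) (z₁ : ℂ) (L : Set ℂ) (v : ℂ → ℝ) (φ F : ℂ → ℂ)
  (h s0 s1 y : ℝ), Fr r A B z₁ L v φ F h s0 s1 → y ∈ Zer v F s0 s1 →
  ∃ T : ℝ → ℂ, ContinuousOn T (Ioc 0 1) ∧ ‖T 1‖ = 1 ∧ (∀ t ∈ Ioo (0 : ℝ) 1, v (T t) < 0) ∧
    (∀ᶠ t : ℝ in 𝓝[>] 0, T t = F (y + t * I)) ∧ SCU r L v (L ∪ T '' Ioc 0 1)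

/-- The perturbed subharmonic function, with an additional small term. -/
def E_VARG : Prop := ∀ (r : ℝ) (Z : Finset ℂ) (ρ : ℂ → ℂ) (O : Set ℂ) (v D : ℂ → ℝ) (δ₀ : ℝ)
  (P : ℝ → ℂ → ℝ) (τ : ℝ → ℝ),
  0 < r → r < 1 → IsOpen O → cann r ⊆ O → (∀ z ∈ O, z ∉ Z → AnalyticAt ℂ ρ z) →
  (∀ z : ℂ, ‖z‖ = r ∨ ‖z‖ = 1 → (ρ z).re = 0) → 0 < δ₀ →
  (∀ ζ ∈ Z, ζ ∈ ann r ∧ HarmonicAt v ζ ∧ (∀ᶠ z in 𝓝[≠] ζ, HarmonicAt D z) ∧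
    ∃ R : ℂ → ℝ, HarmonicAt R ζ ∧
      ∀ᶠ z in 𝓝[≠] ζ, D z - (grad v z * z * ρ z).re = R z) →
  (∃ ε₀ > 0, ∀ ε ∈ Ioo (0 : ℝ) ε₀, Sub (fun z => v z + ε * D z + P ε z) (ann r \ Z) ∧
    ∀ z, |P ε z| ≤ τ ε) →
  ∃ δ C ε₀ : ℝ, 0 < δ ∧ δ ≤ δ₀ ∧ 0 ≤ C ∧ 0 < ε₀ ∧ (∀ ζ ∈ Z, closedBall ζ (2 * δ) ⊆ ann r) ∧
    ∀ ε ∈ Ioo (0 : ℝ) ε₀, ∃ (Θ : ℂ → ℂ) (w : ℂ → ℝ), Sub w (ann r) ∧
      (∀ z ∈ Rg r Z δ, ContinuousAt Θ z ∧ Θ z ∈ Rg r Z (δ / 2) ∧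
        (‖Θ z‖ = r ↔ ‖z‖ = r) ∧ (‖Θ z‖ = 1 ↔ ‖z‖ = 1) ∧
        ‖Θ z - (z - ε * z * ρ z)‖ ≤ C * ε ^ 2) ∧
      (∀ y ∈ Rg r Z (2 * δ), y * exp (ε * ρ y) ∈ Rg r Z δ ∧ Θ (y * exp (ε * ρ y)) = y) ∧
      ∀ z ∈ Rg r Z δ, z ∈ ann r →
        v (Θ z) + ε * D (Θ z) + P ε (Θ z) - C * (ε ^ 2 + τ ε) ≤ w z ∧
        w z ≤ v (Θ z) + ε * D (Θ z) + P ε (Θ z)

/-- The variational inequality at a point of `L`. -/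
def E_VARX : Prop := ∀ (r A B : ℝ) (z₀ z₁ : ℂ) (L K : Set ℂ) (v ω : ℂ → ℝ) (H : ℂ → ℂ → ℝ)
  (Z : Finset ℂ) (a : ℂ → ℂ) (c₀ : ℝ) (τ : ℝ → ℝ), Cfg r A B z₁ L v → A < 0 → SCU r L v K →
  Grn (main r L) H → Sol r 1 0 L ω → z₀ ∈ L → z₀ ∈ ann r → Fld r L K z₀ z₁ Z a c₀ →
  Bound r A B z₀ z₁ 0 →
  (∀ᶠ ε : ℝ in 𝓝[>] 0, 0 ≤ τ ε ∧ Pos r L (fun z => v z + ε * DD H v Z a z + τ ε * ω z) ∧
    ∀ y ∈ K, y ∈ main r L → v y + ε * DD H v Z a y ≤ τ ε) →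
  ∃ C : ℝ, ∀ᶠ ε : ℝ in 𝓝[>] 0, ∃ y : ℂ, ‖y - (z₀ - ε * (z₀ * rho r Z a c₀ z₀))‖ ≤ C * ε ^ 2 ∧
    (y ∈ main r L → v y + ε * DD H v Z a y ≤ C * (ε ^ 2 + τ ε))

/-- Positivity near `L` at first order. -/
def E_POSa : Prop := ∀ (r A B : ℝ) (z₁ : ℂ) (L : Set ℂ) (v D ω : ℂ → ℝ) (φ F : ℂ → ℂ)
  (h s0 s1 : ℝ) (Z : Finset ℂ), Fr r A B z₁ L v φ F h s0 s1 → A < 0 → Dip r L Z D →
  Sol r 1 0 L ω → ∃ C : ℝ, 0 ≤ C ∧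
    ∀ᶠ ε : ℝ in 𝓝[>] 0, Pos r L (fun z => v z + ε * D z + C * ε * ω z)

/-- Positivity near `L` at second order. -/
def E_POSb : Prop := ∀ (r A B : ℝ) (z₁ : ℂ) (L : Set ℂ) (v D ω : ℂ → ℝ) (φ F : ℂ → ℂ)
  (h s0 s1 : ℝ) (Z : Finset ℂ), Fr r A B z₁ L v φ F h s0 s1 → A < 0 → Dip r L Z D →
  Sol r 1 0 L ω → (∀ y ∈ Zer v F s0 s1, DZ D F y) → ∃ C : ℝ, 0 ≤ C ∧
    ∀ᶠ ε : ℝ in 𝓝[>] 0, Pos r L (fun z => v z + ε * D z + C * ε ^ 2 * ω z)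

/-- The perturbed function on the connecting curve. -/
def E_KNEG : Prop := ∀ (r A B : ℝ) (z₁ : ℂ) (L : Set ℂ) (v D : ℂ → ℝ) (φ F : ℂ → ℂ)
  (h s0 s1 y : ℝ) (Z : Finset ℂ) (T : ℝ → ℂ), Fr r A B z₁ L v φ F h s0 s1 → A < 0 →
  Dip r L Z D → y ∈ Zer v F s0 s1 → ContinuousOn T (Ioc 0 1) → ‖T 1‖ = 1 →
  (∀ t ∈ Ioo (0 : ℝ) 1, v (T t) < 0 ∧ T t ∉ Z) → (∀ᶠ t : ℝ in 𝓝[>] 0, T t = F (y + t * I)) →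
  (∀ᶠ ε : ℝ in 𝓝[>] 0, ∀ t ∈ Ioo (0 : ℝ) 1, v (T t) + ε * D (T t) ≤ ε) ∧
    (DZ D F y → ∀ᶠ ε : ℝ in 𝓝[>] 0, ∀ t ∈ Ioo (0 : ℝ) 1, v (T t) + ε * D (T t) ≤ 0)

/-- The alternative. -/
def E_ALT : Prop := ∀ (r A B : ℝ) (z₀ z₁ : ℂ) (L K : Set ℂ) (v : ℂ → ℝ) (Ψ : ℂ → ℂ),
  Cfg r A B z₁ L v → SCU r L v K → z₀ ∈ L → z₀ ∈ ann r → z₀.im = 0 → z₀ ≠ z₁ →
  AnalyticOnNhd ℂ Ψ (main r L) →
  (∃ Z a c₀, Fld r L K z₀ z₁ Z a c₀ ∧ ∑ ζ ∈ Z, (a ζ * (-(2 * ζ ^ 2 * Ψ ζ))).re = 0) ∨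
    ∃ (a b : ℂ) (c μ : ℝ), (a + b).im = 0 ∧ a.im ≠ 0 ∧ (∃ ζ ∈ main r L, μ * Ψ ζ ≠ 0) ∧
      ∀ ζ ∈ main r L, μ * Ψ ζ = QD r z₀ z₁ a b c ζ

/-- The dipole term is small compared with `v` and the height. -/
def E_KEY : Prop := ∀ (r A B : ℝ) (z₁ : ℂ) (L : Set ℂ) (v D : ℂ → ℝ) (φ F : ℂ → ℂ)
  (h s0 s1 : ℝ) (Z : Finset ℂ) (p : ℂ) (σ : ℝ), Fr r A B z₁ L v φ F h s0 s1 → Dip r L Z D →
  (∀ y ∈ Zer v F s0 s1, DZ D F y) → p ∈ L → 0 < σ →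
  ∃ C : ℝ, ∀ᶠ z in 𝓝[main r L] p, -(C * |v z| + σ * -Real.log ‖φ z‖) ≤ D z

/-- The displaced point lies in the cone. -/
def E_AIM : Prop := ∀ (z₀ X : ℂ) (C : ℝ) (P : ℂ → Prop), 4 * |X.re| < -X.im →
  (∀ᶠ z in 𝓝[Cone z₀] z₀, P z) → ∀ᶠ ε : ℝ in 𝓝[>] 0, ∀ y : ℂ, ‖y - (z₀ - ε * X)‖ ≤ C * ε ^ 2 →
    P y ∧ ε * ‖X‖ / 2 ≤ ‖y - z₀‖ ∧ ‖y - z₀‖ ≤ 2 * (ε * ‖X‖)

/-! ### Regularity in the degenerate alternative -/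

def E_EDAT : Prop := ∀ (r A B : ℝ) (z₁ : ℂ) (L : Set ℂ) (v : ℂ → ℝ) (φ F : ℂ → ℂ)
  (h s0 s1 y lam : ℝ) (H : ℂ → ℂ → ℝ) (k : ℂ → ℝ) (Q : ℂ → ℂ), Fr r A B z₁ L v φ F h s0 s1 →
  One v F s0 s1 y → Mart (main r L) F H y k → 0 < lam →
  (∀ ζ ∈ main r L, lam * (grad v ζ * grad k ζ) = Q ζ) →
  Edat Q v F s0 s1 ∧ ∀ x ∈ Zo s0 s1, Ed Q F x 0

def E_REG : Prop := ∀ (r A B : ℝ) (z₀ z₁ : ℂ) (L : Set ℂ) (v : ℂ → ℝ) (φ F : ℂ → ℂ)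
  (h s0 s1 : ℝ) (a b : ℂ) (c : ℝ), Fr r A B z₁ L v φ F h s0 s1 → z₀ ∈ L → z₀ ∈ ann r →
  Edat (QD r z₀ z₁ a b c) v F s0 s1 → ∃ Fb, Bd F Fb

/-- The tip at the pole `z₀`. -/
def E_TIPA : Prop := ∀ (r : ℝ) (z₀ z₁ : ℂ) (L : Set ℂ) (φ F : ℂ → ℂ) (h s0 s1 : ℝ) (a b : ℂ)
  (c : ℝ) (Fb : ℝ → ℂ), Unif r L φ F h → Pic r L F s0 s1 → Bd F Fb → z₀ ∈ L → z₀ ∈ ann r →
  z₁ ∈ ann r → z₀.im = 0 → z₀ ≠ z₁ → a.im ≠ 0 → (∀ x ∈ Zo s0 s1, Ed (QD r z₀ z₁ a b c) F x 0) →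
  (∃ p ∈ L, p ∈ ann r ∧ p.im < 0) ∧ ∃ x ∈ Zo s0 s1, ∃ c₁ C₁ : ℝ, 0 < c₁ ∧
    ∀ U ∈ 𝓝[upH] (x : ℂ), ∀ᶠ z in 𝓝[Cone z₀] z₀, ∃ η ∈ U, F η = z ∧
      c₁ * √‖z - z₀‖ ≤ η.im ∧ ‖η - x‖ ≤ C₁ * √‖z - z₀‖

/-! ### Conclusion -/

def E_CORE : Prop := ∀ (r A B : ℝ) (z₀ z₁ : ℂ) (L : Set ℂ) (v : ℂ → ℝ), Cfg r A B z₁ L v →
  A < 0 → z₀ ∈ L → z₀ ∈ ann r → z₀.im = 0 → z₀ ≠ z₁ →
  (CB1 v z₀ ∨ (CB2 v z₀ ∧ ∀ p ∈ L, p ∈ ann r → p.im = 0)) → ¬ Bound r A B z₀ z₁ 0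

/-- If the extremal value is zero, then no configuration contains the evaluation point. -/
def E_MEM : Prop := ∀ (r A B x s : ℝ) (L : Set ℂ) (v : ℂ → ℝ), 0 < r → r < x → x < 1 → r < s →
  s < 1 → s ≠ x → A < 0 → 0 < hf r A B x → Bound r A B s x 0 → Cfg r A B x L v → (s : ℂ) ∉ L

end Pool.Agent.P.MP_3bd355_an
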